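import Mathlib
import Pool.Agent.Helper34.Paint.Defs
import Pool.Agent.Helper34.Paint.Basic
import Pool.Agent.Helper89.PA.Asym

set_option autoImplicit false

namespace Pool.Agent.Results.MP_fae029_co.AsymptoticConjecture

open Pool.Agent.Helper34.Paint Pool.Agent.Helper89.PA

theorem result :
    (∀ (V : Type) [Fintype V] [DecidableEq V] (G : SimpleGraph V) (s t : ℕ),
      Paintable G s → 1 ≤ t → t ≤ s →
      ∃ k : ℕ, Forces G t k ∧
        (∀ e : ℝ, 0 ≤ e →
          (1 - Real.exp (-(e ^ 2 / (2 * min (t : ℝ) ((s : ℝ) - t + e))))) *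
            ((t : ℝ) * (Fintype.card V : ℝ)) ≤ ((s : ℝ) + e) * (k : ℝ)) ∧
        (s : ℝ) * ((Fintype.card V : ℝ) - (k : ℝ)) ≤
          (((s : ℝ) - t) + √(2 * ((s : ℝ) - t) * Real.log s) + 2 * Real.log s + 1) *
            (Fintype.card V : ℝ) ∧
        (∀ (m : ℕ) (δ : ℝ), 1 ≤ m → 0 ≤ δ → δ ≤ 1 →
          (∑ i ∈ Finset.range (t + 1),
            if s ≤ m * t + i then (t.choose i : ℝ) * δ ^ i * (1 - δ) ^ (t - i) else 0) *
              (Fintype.card V : ℝ) ≤ ((m : ℝ) + δ) * (k : ℝ))) ∧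
    (∀ ε : ℝ, 0 < ε → ∃ s₀ : ℕ, ∀ s : ℕ, s₀ ≤ s →
      ∀ (V : Type) [Fintype V] [DecidableEq V] (G : SimpleGraph V), Paintable G s →
        ∀ t : ℕ, t ≤ s →
          ∃ k : ℕ, Forces G t k ∧
            (1 - ε) * ((t : ℝ) * (Fintype.card V : ℝ)) ≤ (s : ℝ) * (k : ℝ)) := by
  refine ⟨?_, ?_⟩
  · intro V _ _ G s t hG ht hts
    have ht' : (1 : ℝ) ≤ (t : ℝ) := by exact_mod_cast ht
    have hts' : (t : ℝ) ≤ (s : ℝ) := by exact_mod_cast hts
    have hs1 : (1 : ℝ) ≤ (s : ℝ) := ht'.trans hts'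
    have hs0 : (0 : ℝ) < (s : ℝ) := by linarith
    have hlog : 0 ≤ Real.log s := Real.log_nonneg hs1
    have hn : (0 : ℝ) ≤ (Fintype.card V : ℝ) := Nat.cast_nonneg _
    have hk : (0 : ℝ) ≤ (val G (fun _ => t) : ℝ) := Nat.cast_nonneg _
    have hb := bound_exp G s t hG ht hts
    refine ⟨val G (fun _ => t), (forces_iff G t _).2 le_rfl, hb, ?_, ?_⟩
    · -- the number of uncoloured vertices
      obtain ⟨d, hd⟩ : ∃ d : ℝ, d = (s : ℝ) - t := ⟨_, rfl⟩
      obtain ⟨L, hL⟩ : ∃ L : ℝ, L = Real.log s := ⟨_, rfl⟩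
      rw [← hd, ← hL]
      rw [← hL] at hlog
      have hd0 : 0 ≤ d := by linarith
      obtain ⟨r, hr⟩ : ∃ r : ℝ, r = √(2 * d * L) := ⟨_, rfl⟩
      rw [← hr]
      have hr0 : 0 ≤ r := by
        rw [hr]
        exact Real.sqrt_nonneg _
      have hr2 : r ^ 2 = 2 * d * L := by
        rw [hr, Real.sq_sqrt (mul_nonneg (by linarith) hlog)]
      obtain ⟨e, he⟩ : ∃ e : ℝ, e = 2 * L + r := ⟨_, rfl⟩
      have he0 : 0 ≤ e := by linarith
      have he2 : 2 * (d + e) * L ≤ e ^ 2 := by
        rw [he]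
        nlinarith [mul_nonneg hlog hr0]
      have h1 := hb e he0
      rw [← hd] at h1
      obtain ⟨K, hK⟩ : ∃ K : ℝ, K = min (t : ℝ) (d + e) := ⟨_, rfl⟩
      rw [← hK] at h1
      have hK2 : K ≤ d + e := by
        rw [hK]
        exact min_le_right _ _
      have hK0 : 0 ≤ K := by
        rw [hK]
        exact le_min (by linarith) (by linarith)
      have hexp : Real.exp (-(e ^ 2 / (2 * K))) ≤ 1 / s := by
        have h2 : Real.exp (-L) = 1 / s := by
          rw [hL, Real.exp_neg, Real.exp_log hs0, one_div]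
        rw [← h2]
        apply Real.exp_le_exp.2
        apply neg_le_neg
        rcases hK0.eq_or_lt with h0 | h0
        · -- `K = 0` forces `d = 0`, hence `s = 1`
          have h3 : d + e = 0 := by
            rcases min_choice (t : ℝ) (d + e) with h | h
            · rw [h] at hK
              linarith
            · rw [h] at hK
              linarith
          have h4 : L = 0 := by linarith
          rw [h4, ← h0]
          norm_num
        · rw [le_div_iff₀ (by linarith)]
          nlinarith [mul_le_mul_of_nonneg_left hK2 hlog]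
      have hkn : (val G (fun _ => t) : ℝ) ≤ (Fintype.card V : ℝ) := by
        have h5 : val G (fun _ => t) ≤ Fintype.card V := by
          have := Pool.Agent.Helper34.Paint.val_le_sup G (fun _ => t)
          exact this.trans (Finset.card_le_univ _)
        exact_mod_cast h5
      obtain ⟨k, hkd⟩ : ∃ k : ℝ, k = (val G (fun _ => t) : ℝ) := ⟨_, rfl⟩
      obtain ⟨n, hnd⟩ : ∃ n : ℝ, n = (Fintype.card V : ℝ) := ⟨_, rfl⟩
      rw [← hkd] at h1 hk hkn ⊢
      rw [← hnd] at h1 hn hkn ⊢
      obtain ⟨x, hxd⟩ : ∃ x : ℝ, x = Real.exp (-(e ^ 2 / (2 * K))) := ⟨_, rfl⟩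
      rw [← hxd] at h1 hexp
      have hx0 : 0 ≤ x := by
        rw [hxd]
        exact (Real.exp_pos _).le
      have hx : x * s ≤ 1 := by
        have := mul_le_mul_of_nonneg_right hexp hs0.le
        rwa [one_div, inv_mul_cancel₀ hs0.ne'] at this
      have hxt : x * t ≤ 1 := (mul_le_mul_of_nonneg_left hts' hx0).trans hx
      have ht2 : (t : ℝ) = s - d := by linarith
      have h6 : x * t * n ≤ n := by nlinarith
      have h7 : e * k ≤ e * n := mul_le_mul_of_nonneg_left hkn he0
      have h8 : (t : ℝ) * n - x * t * n ≤ s * k + e * k := by linarith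
      have h9 : (t : ℝ) * n = s * n - d * n := by
        rw [ht2]
        ring
      have h10 : (d + r + 2 * L + 1) * n = d * n + e * n + n := by
        rw [he]
        ring
      rw [h10]
      linarith
    · intro m δ hm hδ0 hδ1
      have h1 := bound_tail G s t hG (by omega) m hm δ hδ0 hδ1
      have h2 : tail m δ s t = ∑ i ∈ Finset.range (t + 1),
          if s ≤ m * t + i then (t.choose i : ℝ) * δ ^ i * (1 - δ) ^ (t - i) else 0 := by
        unfold tail
        apply Finset.sum_congr rfl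
        intro i _
        split_ifs
        · rw [mul_one]
        · rw [mul_zero]
      rw [h2] at h1
      exact h1
  · intro ε hε
    refine ⟨⌈16 / ε ^ 3⌉₊ + 1, ?_⟩
    intro s hs V _ _ G hG t hts
    refine ⟨val G (fun _ => t), (forces_iff G t _).2 le_rfl, ?_⟩
    have hk : (0 : ℝ) ≤ (val G (fun _ => t) : ℝ) := Nat.cast_nonneg _
    have hn : (0 : ℝ) ≤ (Fintype.card V : ℝ) := Nat.cast_nonneg _
    rcases Nat.eq_zero_or_pos t with h0 | ht
    · rw [h0]
      rw [h0] at hk
      simp only [Nat.cast_zero, zero_mul, mul_zero]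
      exact mul_nonneg (Nat.cast_nonneg _) hk
    · have ht' : (1 : ℝ) ≤ (t : ℝ) := by exact_mod_cast ht
      have hts' : (t : ℝ) ≤ (s : ℝ) := by exact_mod_cast hts
      have hs0 : (0 : ℝ) < (s : ℝ) := by linarith
      have hs3 : 16 / ε ^ 3 ≤ (s : ℝ) := by
        have h1 : 16 / ε ^ 3 ≤ (⌈16 / ε ^ 3⌉₊ : ℝ) := Nat.le_ceil _
        have h2 : (⌈16 / ε ^ 3⌉₊ : ℝ) ≤ (s : ℝ) := by
          have : ⌈16 / ε ^ 3⌉₊ ≤ s := by omega
          exact_mod_cast this
        exact h1.trans h2
      have hb := bound_exp G s t hG ht hts (ε / 2 * s) (by positivity)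
      obtain ⟨K, hK⟩ : ∃ K : ℝ, K = min (t : ℝ) ((s : ℝ) - t + ε / 2 * s) := ⟨_, rfl⟩
      rw [← hK] at hb
      have hes : 0 < ε / 2 * s := by positivity
      have hK0 : 0 < K := by
        rw [hK]
        exact lt_min (by linarith) (by linarith)
      have hKs : K ≤ s := by
        rw [hK]
        exact (min_le_left _ _).trans hts'
      have hq : ε ^ 2 * s / 8 ≤ (ε / 2 * s) ^ 2 / (2 * K) := by
        rw [div_le_div_iff₀ (by norm_num) (by linarith)]
        have : 0 ≤ ε ^ 2 * s := by positivity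
        nlinarith [mul_le_mul_of_nonneg_left hKs this]
      have hx : Real.exp (-((ε / 2 * s) ^ 2 / (2 * K))) ≤ ε / 2 := by
        have h1 : Real.exp (-((ε / 2 * s) ^ 2 / (2 * K))) ≤ Real.exp (-(ε ^ 2 * s / 8)) :=
          Real.exp_le_exp.2 (neg_le_neg hq)
        refine h1.trans ?_
        rw [Real.exp_neg]
        have h2 : 2 / ε ≤ Real.exp (ε ^ 2 * s / 8) := by
          have h3 := Real.add_one_le_exp (ε ^ 2 * s / 8)
          have h4 : 2 / ε ≤ ε ^ 2 * s / 8 := by
            rw [div_le_div_iff₀ hε (by norm_num)]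
            rw [div_le_iff₀ (by positivity)] at hs3
            nlinarith
          linarith
        rw [inv_le_comm₀ (Real.exp_pos _) (by positivity)]
        rw [inv_div]
        exact h2
      obtain ⟨x, hxd⟩ : ∃ x : ℝ, x = Real.exp (-((ε / 2 * s) ^ 2 / (2 * K))) := ⟨_, rfl⟩
      rw [← hxd] at hb hx
      obtain ⟨a, ha⟩ : ∃ a : ℝ, a = (t : ℝ) * (Fintype.card V : ℝ) := ⟨_, rfl⟩
      have ha0 : 0 ≤ a := by
        rw [ha]
        exact mul_nonneg (by linarith) hn
      rw [← ha] at hb ⊢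
      have h5 : (1 - ε / 2) * a ≤ (1 + ε / 2) * ((s : ℝ) * (val G (fun _ => t) : ℝ)) := by
        calc (1 - ε / 2) * a ≤ (1 - x) * a :=
              mul_le_mul_of_nonneg_right (by linarith) ha0
          _ ≤ _ := hb
          _ = _ := by ring
      have h6 : (1 + ε / 2) * ((1 - ε) * a) ≤
          (1 + ε / 2) * ((s : ℝ) * (val G (fun _ => t) : ℝ)) := by
        refine le_trans ?_ h5
        nlinarith [mul_nonneg (sq_nonneg ε) ha0]
      exact le_of_mul_le_mul_left h6 (by linarith)

end Pool.Agent.Results.MP_fae029_co.AsymptoticConjecture
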