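import Mathlib
import Pool.Agent.Helper34.Paint.Defs
import Pool.Agent.Helper34.Paint.Basic

set_option autoImplicit false

namespace Pool.Agent.Results.MP_fae029_co.ColourableGraphs

open Pool.Agent.Helper34.Paint

theorem result :
    ∀ (V : Type) [Fintype V] [DecidableEq V] (G : SimpleGraph V) (m : ℕ), 1 ≤ m → G.Colorable m →
      (∀ t : ℕ, ∃ k : ℕ, Forces G t k ∧
        (1 - (1 - 1 / (m : ℝ)) ^ t) * (Fintype.card V : ℝ) ≤ (k : ℝ)) ∧
      ∀ s t : ℕ, t < s → s * (m - 1) ^ (s - 1) ≤ m ^ (s - 1) →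
        ∃ k : ℕ, t * Fintype.card V ≤ k * s ∧ Forces G t k := by
  intro V _ _ G m hm hG
  have hb : ∀ t : ℕ, (1 - (1 - 1 / (m : ℝ)) ^ t) * (Fintype.card V : ℝ) ≤
      (val G (fun _ => t) : ℝ) := fun t => colorable_bound G m t hm hG
  refine ⟨fun t => ⟨val G (fun _ => t), (forces_iff G t _).2 le_rfl, hb t⟩, ?_⟩
  intro s t hts hms
  refine ⟨val G (fun _ => t), ?_, (forces_iff G t _).2 le_rfl⟩
  have hm' : (1 : ℝ) ≤ (m : ℝ) := by exact_mod_cast hm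
  have hm0 : (0 : ℝ) < (m : ℝ) := by linarith
  have hx0 : (0 : ℝ) ≤ 1 - 1 / (m : ℝ) := by
    rw [sub_nonneg, div_le_one hm0]
    exact hm'
  have hx1 : 1 - 1 / (m : ℝ) ≤ 1 := by
    have : (0 : ℝ) ≤ 1 / (m : ℝ) := by positivity
    linarith
  have hs0 : (0 : ℝ) < (s : ℝ) := by exact_mod_cast (by omega : 0 < s)
  have hn0 : (0 : ℝ) ≤ (Fintype.card V : ℝ) := Nat.cast_nonneg _
  have h1 : (s : ℝ) * (1 - 1 / (m : ℝ)) ^ (s - 1) ≤ 1 := by
    have e1 : 1 - 1 / (m : ℝ) = ((m - 1 : ℕ) : ℝ) / (m : ℝ) := by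
      rw [Nat.cast_sub hm]
      field_simp
      push_cast
      ring
    rw [e1, div_pow, mul_div_assoc', div_le_one (by positivity)]
    exact_mod_cast hms
  have h2 := ratio_mono (1 - 1 / (m : ℝ)) hx0 hx1 t (s - 1) (by omega)
  have e2 : ((s - 1 : ℕ) : ℝ) = (s : ℝ) - 1 := by
    rw [Nat.cast_sub (by omega)]
    simp
  rw [e2] at h2
  have ht0 : (0 : ℝ) ≤ (t : ℝ) := Nat.cast_nonneg t
  have h3 : (t : ℝ) ≤ (s : ℝ) * (1 - (1 - 1 / (m : ℝ)) ^ t) := by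
    rcases Nat.eq_or_lt_of_le (show 1 ≤ s by omega) with h | h
    · have : t = 0 := by omega
      subst this
      simp
    · have hs1 : (0 : ℝ) < (s : ℝ) - 1 := by
        have : (1 : ℝ) < (s : ℝ) := by exact_mod_cast h
        linarith
      have h4 : (t : ℝ) * ((s : ℝ) - 1) ≤ (t : ℝ) * ((s : ℝ) * (1 - (1 - 1 / (m : ℝ)) ^ (s - 1))) := by
        apply mul_le_mul_of_nonneg_left _ ht0
        linarith
      have h5 : (t : ℝ) * ((s : ℝ) * (1 - (1 - 1 / (m : ℝ)) ^ (s - 1))) ≤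
          (s : ℝ) * (((s : ℝ) - 1) * (1 - (1 - 1 / (m : ℝ)) ^ t)) := by
        calc (t : ℝ) * ((s : ℝ) * (1 - (1 - 1 / (m : ℝ)) ^ (s - 1)))
            = (s : ℝ) * ((t : ℝ) * (1 - (1 - 1 / (m : ℝ)) ^ (s - 1))) := by ring
          _ ≤ _ := mul_le_mul_of_nonneg_left h2 hs0.le
      have h6 : (t : ℝ) * ((s : ℝ) - 1) ≤
          ((s : ℝ) * (1 - (1 - 1 / (m : ℝ)) ^ t)) * ((s : ℝ) - 1) := by
        calc _ ≤ _ := h4
          _ ≤ _ := h5
          _ = _ := by ring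
      exact le_of_mul_le_mul_right h6 hs1
  have h7 : (t : ℝ) * (Fintype.card V : ℝ) ≤ (val G (fun _ => t) : ℝ) * (s : ℝ) := by
    calc (t : ℝ) * (Fintype.card V : ℝ)
        ≤ (s : ℝ) * (1 - (1 - 1 / (m : ℝ)) ^ t) * (Fintype.card V : ℝ) :=
          mul_le_mul_of_nonneg_right h3 hn0
      _ = (s : ℝ) * ((1 - (1 - 1 / (m : ℝ)) ^ t) * (Fintype.card V : ℝ)) := by ring
      _ ≤ (s : ℝ) * (val G (fun _ => t) : ℝ) := mul_le_mul_of_nonneg_left (hb t) hs0.le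
      _ = _ := by ring
  exact_mod_cast h7

end Pool.Agent.Results.MP_fae029_co.ColourableGraphs
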