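import Mathlib
import Pool.Agent.Helper34.Paint.Defs
import Pool.Agent.Helper34.Paint.Basic

set_option autoImplicit false

namespace Pool.Agent.Results.MP_fae029_co.HalfOfAllT

open Pool.Agent.Helper34.Paint

theorem result :
    ∀ (V : Type) [Fintype V] [DecidableEq V] (G : SimpleGraph V),
      (∀ a b k : ℕ, Forces G (a + b) k →
        ∃ i j : ℕ, k ≤ i + j ∧ Forces G a i ∧ Forces G b j) ∧
      ∀ s t : ℕ, Paintable G s → t ≤ s →
        (t ∣ s → ∃ k : ℕ, t * Fintype.card V ≤ k * s ∧ Forces G t k) ∧
        ((∃ k : ℕ, t * Fintype.card V ≤ k * s ∧ Forces G t k) ∨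
          (∃ k : ℕ, (s - t) * Fintype.card V ≤ k * s ∧ Forces G (s - t) k)) := by
  intro V _ _ G
  have hsub : ∀ a b : ℕ, val G (fun _ => a + b) ≤ val G (fun _ => a) + val G (fun _ => b) :=
    fun a b => val_add G (fun _ => a) (fun _ => b)
  refine ⟨?_, ?_⟩
  · intro a b k hk
    rw [forces_iff] at hk
    exact ⟨val G (fun _ => a), val G (fun _ => b), hk.trans (hsub a b),
      (forces_iff G a _).2 le_rfl, (forces_iff G b _).2 le_rfl⟩
  · intro s t hs hts
    have hn : Fintype.card V ≤ val G (fun _ => s) := (forces_iff G s _).1 hs
    refine ⟨?_, ?_⟩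
    · rintro ⟨d, hd⟩
      have hmul : ∀ e : ℕ, val G (fun _ => t * e) ≤ e * val G (fun _ => t) := by
        intro e
        induction e with
        | zero =>
          rw [val_zero G _ (by simp)]
          exact Nat.zero_le _
        | succ e ih =>
          have h1 := hsub (t * e) t
          have h2 : t * (e + 1) = t * e + t := by ring
          rw [h2]
          calc _ ≤ _ := h1
            _ ≤ e * val G (fun _ => t) + val G (fun _ => t) := by omega
            _ = (e + 1) * val G (fun _ => t) := by ring
      refine ⟨val G (fun _ => t), ?_, (forces_iff G t _).2 le_rfl⟩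
      have h3 := hmul d
      rw [← hd] at h3
      calc t * Fintype.card V ≤ t * (d * val G (fun _ => t)) :=
            Nat.mul_le_mul_left _ (hn.trans h3)
        _ = val G (fun _ => t) * s := by rw [hd]; ring
    · have h1 := hsub t (s - t)
      rw [Nat.add_sub_cancel' hts] at h1
      by_contra hcon
      push Not at hcon
      obtain ⟨hc1, hc2⟩ := hcon
      have h2 : val G (fun _ => t) * s < t * Fintype.card V := by
        by_contra h
        push Not at h
        exact hc1 _ h ((forces_iff G t _).2 le_rfl)
      have h3 : val G (fun _ => s - t) * s < (s - t) * Fintype.card V := by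
        by_contra h
        push Not at h
        exact hc2 _ h ((forces_iff G (s - t) _).2 le_rfl)
      have h4 : s * Fintype.card V = t * Fintype.card V + (s - t) * Fintype.card V := by
        rw [← Nat.add_mul, Nat.add_sub_cancel' hts]
      have h5 : s * Fintype.card V ≤ s * (val G (fun _ => t) + val G (fun _ => s - t)) :=
        Nat.mul_le_mul_left _ (hn.trans h1)
      have h6 : s * (val G (fun _ => t) + val G (fun _ => s - t)) =
          val G (fun _ => t) * s + val G (fun _ => s - t) * s := by ring
      omega

end Pool.Agent.Results.MP_fae029_co.HalfOfAllT
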