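import Mathlib
import Pool.Agent.Helper34.Paint.Defs
import Pool.Agent.Helper34.Paint.Basic

set_option autoImplicit false

namespace Pool.Agent.Results.MP_fae029_co.OnlineChappell

open Pool.Agent.Helper34.Paint

theorem result :
    ∀ (V : Type) [Fintype V] [DecidableEq V] (G : SimpleGraph V) (s t : ℕ), 1 ≤ t → t < s →
      Paintable G s →
      ∃ k m : ℕ, Forces G t k ∧ 6 * t * Fintype.card V ≤ 7 * k * s ∧
        m ≤ Fintype.card V ∧ m ≤ (s - t) * G.indepNum ∧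
        ∀ q : ℝ, 0 ≤ q → ((s - t : ℕ) : ℝ) * q ≤ 1 →
          (1 - ((s - t : ℕ) : ℝ) * q) * ((Fintype.card V : ℝ) - (m : ℝ)) +
            (1 - (1 - q) ^ t) * (m : ℝ) ≤ (k : ℝ) := by
  intro V _ _ G s t ht hts hs
  obtain ⟨m, hm1, hm2, hm⟩ := general G s t hs ht hts.le
  refine ⟨val G (fun _ => t), m, (forces_iff G t _).2 le_rfl, ?_, hm1, hm2, hm⟩
  obtain ⟨q, hq0, hq1, hq2, hq3⟩ := choose_q s t ht hts
  have h := hm q hq0 (by linarith)
  have hn : (m : ℝ) ≤ (Fintype.card V : ℝ) := by exact_mod_cast hm1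
  have hm0 : (0 : ℝ) ≤ (m : ℝ) := Nat.cast_nonneg m
  have h1 : 6 * (t : ℝ) / (7 * s) * ((Fintype.card V : ℝ) - (m : ℝ)) ≤
      (1 - ((s - t : ℕ) : ℝ) * q) * ((Fintype.card V : ℝ) - (m : ℝ)) :=
    mul_le_mul_of_nonneg_right hq2 (by linarith)
  have h2 : 6 * (t : ℝ) / (7 * s) * (m : ℝ) ≤ (1 - (1 - q) ^ t) * (m : ℝ) :=
    mul_le_mul_of_nonneg_right hq3 hm0
  have hs0 : (0 : ℝ) < (s : ℝ) := by exact_mod_cast (by omega : 0 < s)
  have h3 : 6 * (t : ℝ) / (7 * s) * (Fintype.card V : ℝ) ≤ (val G (fun _ => t) : ℝ) := by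
    nlinarith [h1, h2, h]
  rw [div_mul_eq_mul_div, div_le_iff₀ (by positivity)] at h3
  have h4 : 6 * (t : ℝ) * (Fintype.card V : ℝ) ≤ 7 * (val G (fun _ => t) : ℝ) * (s : ℝ) := by
    linarith
  exact_mod_cast h4

end Pool.Agent.Results.MP_fae029_co.OnlineChappell
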